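import Pool.Agent.K4H49.NV.P8

set_option autoImplicit false

/-!
# MP_462b8b_an: the Navier-type critical biharmonic Sobolev constant of every cone is `S**`

The definitions are in `Pool/Agent/K4H49/NV/Defs.lean`: the cone `cone S`, the class `NavierClass`,
which is `C²_c(closure C \ {0})`, the quotient, the constant `navierConst C` (the constant `S_2**(C; 0)`
of the problem), the elements `D2Elem` of `D²(ℝ^n)` and the constant `sobolevConst n` (`S**`).

Proof. Let `u` be in the class of the cone `C` and `δ > 0`. The set where `|u| ≥ δ` is a compact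
subset of the open cone. Hence there is a smooth compactly supported `F ≥ 0` on `ℝ^n` with
`F > |Δ u|` on this set and with `‖F‖_2` almost `‖Δ u‖_{L²(C)}`. The convolution `w` of `F` with the
superharmonic function `c (|x|² + ε²)^((2-n)/2)` has `-Δ w > |Δ u|` on the set, `‖Δ w‖_2 ≤ ‖F‖_2`, and
the maximum principle gives `|u| - δ ≤ w` on `C`. Cutting off `w` costs little, since `w` decays like
`|x|^(2-n)`, so that `S** ‖(|u| - δ)_+‖² ≤ ‖F‖_2²`. Nothing is used of the boundary of the cone.
-/

open Metric Pool.Agent.K4H49.NV

/-- For all `n ≥ 5` and all nonempty open subsets `S` of the unit sphere of `ℝ^n` the Navier-type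
constant of the cone over `S` is equal to `S**`. -/
theorem Pool.Agent.Results.MP_462b8b_an.NavierEqualsSobolev.result (n : ℕ) (hn : 5 ≤ n)
    (S : Set (sphere (0 : EuclideanSpace ℝ (Fin n)) 1)) (hS : IsOpen S) (hne : S.Nonempty) :
    navierConst (cone S) = sobolevConst n :=
  cone_eq hn S hS hne
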